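import Pool.Agent.Helper65.TU.Stmts

open Set Filter Topology

namespace Pool.Agent.Helper65.TU

universe u

namespace S4L

theorem aux {X : Type u} [AddCommGroup X] [Lattice X] [IsOrderedAddMonoid X] {x a c : X}
    (hc : 0 ≤ c) (h1 : x - a ≤ c) (h2 : -a ≤ c + x) :
    |x - ((x ⊓ a) ⊔ (-a))| ≤ c := by
  refine abs_le'.2 ⟨?_, ?_⟩
  · rw [sub_le_comm]
    refine (le_inf ?_ ?_).trans le_sup_left
    · exact sub_le_self x hc
    · rwa [sub_le_comm]
  · rw [neg_sub, sub_le_iff_le_add]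
    exact sup_le (inf_le_left.trans (le_add_of_nonneg_left hc)) h2

end S4L

theorem st_LAT : ST_LAT.{u} := by
  intro X _ _ _ _ _ hh
  refine ⟨fun x y h => ?_, fun x l => ?_, hh⟩
  · rw [one_mul]
    exact norm_le_norm_of_abs_le_abs h
  · have hl : (0 : X) ≤ |l| := abs_nonneg l
    have hl2 : -|l| ≤ |l| := (neg_nonpos.2 hl).trans hl
    refine ⟨(x ⊓ |l|) ⊔ (-|l|), x - ((x ⊓ |l|) ⊔ (-|l|)), by abel, ?_, ?_, ?_⟩
    · refine abs_le'.2 ⟨sup_le inf_le_right hl2, ?_⟩
      exact neg_le.1 le_sup_right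
    · refine S4L.aux (abs_nonneg x) ?_ ?_
      · exact (sub_le_self x hl).trans (le_abs_self x)
      · refine (neg_nonpos.2 hl).trans ?_
        have := neg_le_abs x
        rwa [neg_le_iff_add_nonneg] at this
    · refine S4L.aux (abs_nonneg _) ?_ ?_
      · exact (sub_le_sub_left (le_abs_self l) x).trans (le_abs_self _)
      · have h1 : -|l| ≤ l := neg_le.1 (neg_le_abs l)
        refine h1.trans ?_
        have h2 := neg_le_abs (x - l)
        rw [neg_sub, sub_le_iff_le_add] at h2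
        exact h2

end Pool.Agent.Helper65.TU
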