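import Pool.Agent.Helper65.TU.Basic

open Set Filter Topology

namespace Pool.Agent.Helper65.TU

universe u

theorem st_REV : ST_REV.{u} := by
  intro X _ _
  refine ⟨fun _ K => ⟨K.1, subset_univ _, K.2.2⟩, fun ε hε => ⟨ε / 2, by positivity, fun q => ?_⟩⟩
  have hd : (0 : ℝ) < 1 + ε / 2 := by positivity
  have hq : WCpt q.1 := q.2.2
  have h1 := (hq.inter_ball (1 + ε / 2)).smul (1 + ε / 2)⁻¹
  refine ⟨⟨_, ?_, h1⟩, fun p hp x hx => ?_⟩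
  · rintro _ ⟨y, ⟨_, hy⟩, rfl⟩
    change ‖(1 + ε / 2)⁻¹ • y‖ ≤ 1
    rw [norm_smul, norm_inv, Real.norm_of_nonneg hd.le, inv_mul_le_iff₀ hd, mul_one]
    exact hy
  · obtain ⟨y, hy, hxy⟩ := hp x hx
    have hx1 : ‖x‖ ≤ 1 := p.2.1 hx
    have hy1 : ‖y‖ ≤ 1 + ε / 2 := by
      have h2 : ‖y‖ ≤ ‖x‖ + ‖x - y‖ := by
        have h3 := norm_sub_le x (x - y)
        rwa [sub_sub_cancel] at h3
      linarith
    refine ⟨(1 + ε / 2)⁻¹ • y, ⟨y, ⟨hy, hy1⟩, rfl⟩, ?_⟩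
    have h4 : x - (1 + ε / 2)⁻¹ • y = (x - y) + (1 - (1 + ε / 2)⁻¹) • y := by
      rw [sub_smul, one_smul]; abel
    have h5 : (0 : ℝ) ≤ 1 - (1 + ε / 2)⁻¹ := by
      rw [sub_nonneg]
      exact inv_le_one_of_one_le₀ (by linarith)
    have h6 : (1 - (1 + ε / 2)⁻¹) * (1 + ε / 2) = ε / 2 := by
      field_simp
      ring
    rw [h4]
    refine (norm_add_le _ _).trans ?_
    rw [norm_smul, Real.norm_of_nonneg h5]
    have h7 := mul_le_mul_of_nonneg_left hy1 h5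
    rw [h6] at h7
    linarith

end Pool.Agent.Helper65.TU
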